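import Pool.Agent.Y938.SO.Stm

/-! Project SO (helper938), job SO1 (helper254): basis and continuum. -/

set_option autoImplicit false

namespace Pool.Agent.Y938.SO

open Set Topology

namespace Basis

theorem coord {p : ℕ} (x : Sol p) : ∀ n i, x.1 i = (p ^ n) • x.1 (i + n)
  | 0, i => by rw [pow_zero, one_smul, add_zero]
  | n + 1, i => by
      rw [pow_succ, mul_smul, ← add_assoc, x.2 (i + n)]
      exact coord x n i

/-- the leaf through zero -/
noncomputable def leaf (p : ℕ) (hp : 2 ≤ p) (t : ℝ) : Sol p :=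
  ⟨fun n => ((t / (p : ℝ) ^ n : ℝ) : Circ), fun n => by
    have hp0 : (p : ℝ) ≠ 0 := by positivity
    rw [← AddCircle.coe_nsmul, nsmul_eq_mul]
    congr 1
    rw [pow_succ]
    field_simp⟩

theorem leaf_continuous (p : ℕ) (hp : 2 ≤ p) : Continuous (leaf p hp) := by
  refine Continuous.subtype_mk ?_ _
  refine continuous_pi fun n => ?_
  exact (AddCircle.continuous_mk' 1).comp (continuous_id.div_const _)

end Basis

theorem basis_spec : S_basis := by
  intro p hp x U hU hx
  obtain ⟨W, hW, rfl⟩ := isOpen_induced_iff.1 hU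
  obtain ⟨I, u, hu, hsub⟩ := isOpen_pi_iff.1 hW x.1 hx
  refine ⟨I.sup id, fun n hn => ⟨⋂ i ∈ I, {c : Circ | (p ^ (n - i)) • c ∈ u i}, ?_, ?_, ?_⟩⟩
  · exact isOpen_biInter_finset fun i hi => (hu i hi).1.preimage (continuous_const_smul _)
  · simp only [mem_iInter, mem_setOf_eq]
    intro i hi
    have hin : i ≤ n := le_trans (Finset.le_sup (f := id) hi) hn
    have h1 := Basis.coord x (n - i) i
    rw [Nat.add_sub_cancel' hin] at h1
    rw [← h1]
    exact (hu i hi).2
  · intro z hz
    apply hsub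
    intro i hi
    have hi' : i ∈ I := hi
    simp only [mem_iInter, mem_setOf_eq] at hz
    have hin : i ≤ n := le_trans (Finset.le_sup (f := id) hi') hn
    have h1 := Basis.coord z (n - i) i
    rw [Nat.add_sub_cancel' hin] at h1
    rw [h1]
    exact hz i hi'

theorem cont_spec (h1 : S_basis) : S_cont := by
  intro p hp
  have hclosed : IsClosed {x : ℕ → Circ | ∀ n, p • x (n + 1) = x n} := by
    have h2 : {x : ℕ → Circ | ∀ n, p • x (n + 1) = x n} =
        ⋂ n, {x : ℕ → Circ | p • x (n + 1) = x n} := by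
      ext x; simp
    rw [h2]
    exact isClosed_iInter fun n => isClosed_eq
      ((continuous_const_smul p).comp (continuous_apply (n + 1))) (continuous_apply n)
  have hcomp : CompactSpace (Sol p) := isCompact_iff_compactSpace.1 hclosed.isCompact
  have hT2 : T2Space (Sol p) :=
    inferInstanceAs (T2Space {x : ℕ → Circ // ∀ n, p • x (n + 1) = x n})
  refine ⟨hcomp, hT2, ?_⟩
  have hdense : closure (range (Basis.leaf p hp)) = univ := by
    rw [eq_univ_iff_forall]
    intro x
    rw [mem_closure_iff]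
    intro U hU hx
    obtain ⟨N, hN⟩ := h1 p hp x U hU hx
    obtain ⟨V, hV, hxV, hVU⟩ := hN N le_rfl
    obtain ⟨a, ha⟩ : ∃ a : ℝ, (a : Circ) = x.1 N := QuotientAddGroup.mk_surjective (x.1 N)
    refine ⟨Basis.leaf p hp ((p : ℝ) ^ N * a), hVU _ ?_, mem_range_self _⟩
    have hp0 : (p : ℝ) ^ N ≠ 0 := by positivity
    have h2 : (Basis.leaf p hp ((p : ℝ) ^ N * a)).1 N = x.1 N := by
      show (((p : ℝ) ^ N * a / (p : ℝ) ^ N : ℝ) : Circ) = x.1 N
      rw [mul_div_cancel_left₀ _ hp0, ha]
    rw [h2]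
    exact hxV
  have hpre : IsPreconnected (univ : Set (Sol p)) := by
    rw [← hdense]
    exact (isPreconnected_range (Basis.leaf_continuous p hp)).closure
  haveI : PreconnectedSpace (Sol p) := ⟨hpre⟩
  exact ⟨⟨Basis.leaf p hp 0⟩⟩

end Pool.Agent.Y938.SO
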