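import Pool.Agent.Y938.SO.Stm

/-! Project SO (helper938), job SO2 (helper254): cut lemma on the circle. -/

set_option autoImplicit false

namespace Pool.Agent.Y938.SO

open Set Topology

namespace Cut

theorem one_div_ne {p : ℕ} (hp : 2 ≤ p) : ((1 / (p : ℝ) : ℝ) : Circ) ≠ 0 := by
  intro h
  rw [AddCircle.coe_eq_zero_iff] at h
  obtain ⟨n, hn⟩ := h
  have hp' : (2 : ℝ) ≤ p := by exact_mod_cast hp
  rw [zsmul_eq_mul, mul_one] at hn
  have h1 : 0 < (n : ℝ) := by rw [hn]; positivity
  have h2 : (n : ℝ) < 1 := by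
    rw [hn, div_lt_one (by linarith)]; linarith
  have h3 : 0 < n := by exact_mod_cast h1
  have h4 : n < 1 := by exact_mod_cast h2
  omega

end Cut

theorem cut_spec : S_cut := by
  intro p hp D y u hD hav hu hu'
  have hp0 : (p : ℝ) ≠ 0 := by positivity
  obtain ⟨w0, hw0⟩ : ∃ w0 : ℝ, (w0 : Circ) = p • y := QuotientAddGroup.mk_surjective (p • y)
  let g : Circ → ℝ := fun c => (AddCircle.equivIco 1 w0 c : ℝ)
  have hg : ∀ c : Circ, ((g c : ℝ) : Circ) = c := fun c => AddCircle.coe_equivIco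
  have hgc : ∀ c : Circ, c ≠ (w0 : Circ) → ContinuousAt g c := fun c hc =>
    continuous_subtype_val.continuousAt.comp (AddCircle.continuousAt_equivIco 1 w0 hc)
  let h : Circ → Circ := fun z => z - ((g (p • z) / (p : ℝ) : ℝ) : Circ)
  have hcont : ContinuousOn h D := by
    intro z hz
    apply ContinuousAt.continuousWithinAt
    have h1 : p • z ≠ (w0 : Circ) := by rw [hw0]; exact hav z hz
    have h2 : ContinuousAt (fun z : Circ => g (p • z)) z :=
      ContinuousAt.comp (f := fun z : Circ => p • z) (g := g) (hgc _ h1)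
        (continuous_const_smul p).continuousAt
    have h3 : ContinuousAt (fun z : Circ => ((g (p • z) / (p : ℝ) : ℝ) : Circ)) z :=
      ContinuousAt.comp (f := fun z : Circ => g (p • z) / (p : ℝ)) (g := fun t : ℝ => (t : Circ))
        (AddCircle.continuous_mk' 1).continuousAt (h2.div_const _)
    exact continuousAt_id.sub h3
  have hker : ∀ z, p • h z = 0 := by
    intro z
    have h1 : p • ((g (p • z) / (p : ℝ) : ℝ) : Circ) = p • z := by
      rw [← AddCircle.coe_nsmul, nsmul_eq_mul, mul_div_cancel₀ _ hp0, hg]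
    show p • (z - ((g (p • z) / (p : ℝ) : ℝ) : Circ)) = 0
    rw [smul_sub, h1, sub_self]
  have himg : IsPreconnected (h '' D) := hD.image h hcont
  have hfin : (h '' D).Finite := by
    refine (AddCircle.finite_torsion (1 : ℝ) (n := p) (by omega)).subset ?_
    rintro _ ⟨z, _, rfl⟩
    exact hker z
  have hne : h u ≠ h (u + ((1 / (p : ℝ) : ℝ) : Circ)) := by
    intro heq
    have h1 : p • (u + ((1 / (p : ℝ) : ℝ) : Circ)) = p • u := by
      rw [smul_add, ← AddCircle.coe_nsmul, nsmul_eq_mul, mul_one_div_cancel hp0]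
      rw [AddCircle.coe_period, add_zero]
    have h2 : h (u + ((1 / (p : ℝ) : ℝ) : Circ)) = h u + ((1 / (p : ℝ) : ℝ) : Circ) := by
      show u + ((1 / (p : ℝ) : ℝ) : Circ) - ((g (p • (u + ((1 / (p : ℝ) : ℝ) : Circ))) / (p : ℝ) : ℝ) : Circ) =
        u - ((g (p • u) / (p : ℝ) : ℝ) : Circ) + ((1 / (p : ℝ) : ℝ) : Circ)
      rw [h1]; abel
    rw [h2] at heq
    exact Cut.one_div_ne hp (left_eq_add.1 heq)
  exact himg.infinite_of_nontrivial ⟨h u, ⟨u, hu, rfl⟩, _, ⟨_, hu', rfl⟩, hne⟩ hfin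

end Pool.Agent.Y938.SO
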