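import Pool.Agent.Y938.SO.Stm

set_option autoImplicit false

/-! Project SO, job SO5 (helper244): closedness, interior and disjointness. -/

namespace Pool.Agent.Y938.SO

open Set Topology

namespace Geo5

/-- a point of the leaf of zero -/
noncomputable def leaf (p : ℕ) (hp : 2 ≤ p) (t : ℝ) : Sol p :=
  ⟨fun n => ((t / (p : ℝ) ^ n : ℝ) : Circ), fun n => by
    have hp0 : (p : ℝ) ≠ 0 := by positivity
    rw [← AddCircle.coe_nsmul]
    congr 1
    rw [nsmul_eq_mul, pow_succ]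
    field_simp⟩

theorem cont_sum (p q : ℕ) : Continuous (fun z : Sol p × Sol q => z.1.1 0 + z.2.1 0) :=
  ((continuous_apply 0).comp (continuous_subtype_val.comp continuous_fst)).add
    ((continuous_apply 0).comp (continuous_subtype_val.comp continuous_snd))

end Geo5

open Geo5 in
theorem geo_spec : S_geo := by
  intro p q hp hq
  refine ⟨fun a b => ?_, fun a b hab => ?_, ?_⟩
  · have h : IsClosed ((fun t : ℝ => (t : Circ)) '' Icc a b) :=
      (isCompact_Icc.image (AddCircle.continuous_mk' 1)).isClosed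
    exact h.preimage (cont_sum p q)
  · have hopen : IsOpen ((fun t : ℝ => (t : Circ)) '' Ioo a b) :=
      QuotientAddGroup.isOpenMap_coe _ isOpen_Ioo
    have hsub : (fun z : Sol p × Sol q => z.1.1 0 + z.2.1 0) ⁻¹'
        ((fun t : ℝ => (t : Circ)) '' Ioo a b) ⊆ Wst p q a b := by
      rintro z ⟨t, ht, hz⟩
      exact ⟨t, Ioo_subset_Icc_self ht, hz⟩
    refine ⟨(leaf p hp ((a + b) / 2), leaf q hq 0), ?_⟩
    refine interior_maximal hsub (hopen.preimage (cont_sum p q)) ?_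
    refine ⟨(a + b) / 2, ⟨by linarith, by linarith⟩, ?_⟩
    change (((a + b) / 2 : ℝ) : Circ) =
      (((a + b) / 2 / (p : ℝ) ^ 0 : ℝ) : Circ) + ((0 / (q : ℝ) ^ 0 : ℝ) : Circ)
    rw [← AddCircle.coe_add]
    congr 1
    simp
  · rw [Set.disjoint_left]
    rintro z ⟨s, hs, hz⟩ ⟨t, ht, hz'⟩
    have heq : (s : Circ) = (t : Circ) := by
      have h1 : (s : Circ) = z.1.1 0 + z.2.1 0 := hz
      have h2 : (t : Circ) = z.1.1 0 + z.2.1 0 := hz'
      rw [h1, h2]
    have hs' : s ∈ Ico (0 : ℝ) (0 + 1) := ⟨hs.1, by linarith [hs.2]⟩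
    have ht' : t ∈ Ico (0 : ℝ) (0 + 1) := ⟨by linarith [ht.1], by linarith [ht.2]⟩
    have : Fact (0 < (1 : ℝ)) := ⟨one_pos⟩
    have := (AddCircle.coe_eq_coe_iff_of_mem_Ico hs' ht').1 heq
    linarith [hs.2, ht.1]

end Pool.Agent.Y938.SO
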