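import Pool.Agent.Y938.SO.Stm

set_option autoImplicit false

/-! Project SO, job SO3 (helper244): subcontinua of the solenoid with interior. -/

namespace Pool.Agent.Y938.SO

open Set Topology

namespace Int3

theorem cont_coord (p n : ℕ) : Continuous (fun z : Sol p => z.1 n) :=
  (continuous_apply n).comp continuous_subtype_val

/-- the translate of a point of the solenoid along its leaf -/
noncomputable def tr (p : ℕ) (hp : 2 ≤ p) (x : Sol p) (t : ℝ) : Sol p :=
  ⟨fun n => x.1 n + ((t / (p : ℝ) ^ n : ℝ) : Circ), fun n => by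
    have hp0 : (p : ℝ) ≠ 0 := by positivity
    rw [nsmul_add, x.2 n, ← AddCircle.coe_nsmul]
    congr 2
    rw [nsmul_eq_mul, pow_succ]
    field_simp⟩

end Int3

open Int3 in
theorem int_spec (h1 : S_basis) (h2 : S_cut) (h3 : S_cont) : S_int := by
  intro p hp C hC ⟨x, hx⟩
  obtain ⟨_, hT2, _⟩ := h3 p hp
  by_contra hne
  obtain ⟨y, hy⟩ := (Set.ne_univ_iff_exists_notMem C).1 hne
  have hclosed : IsClosed C := hC.1.isClosed
  obtain ⟨N, hN⟩ := h1 p hp x (interior C) isOpen_interior hx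
  obtain ⟨N', hN'⟩ := h1 p hp y Cᶜ hclosed.isOpen_compl hy
  set n := max N N' with hn
  obtain ⟨V, _, hxV, hV⟩ := hN n (le_max_left _ _)
  obtain ⟨U, _, hyU, hU⟩ := hN' n (le_max_right _ _)
  have hD : IsPreconnected ((fun z : Sol p => z.1 (n + 1)) '' C) :=
    hC.2.isPreconnected.image _ (cont_coord p (n + 1)).continuousOn
  have ha : ∀ d ∈ (fun z : Sol p => z.1 (n + 1)) '' C, p • d ≠ p • y.1 (n + 1) := by
    rintro d ⟨z, hz, rfl⟩ heq
    rw [y.2 n] at heq
    have heq' : z.1 n = y.1 n := by rw [← z.2 n]; exact heq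
    exact hU z (by rw [heq']; exact hyU) hz
  have hp0 : (p : ℝ) ≠ 0 := by positivity
  refine h2 p hp _ (y.1 (n + 1)) (x.1 (n + 1)) hD ha ⟨x, interior_subset hx, rfl⟩ ?_
  refine ⟨tr p hp x ((p : ℝ) ^ n), interior_subset (hV _ ?_), ?_⟩
  · have : (tr p hp x ((p : ℝ) ^ n)).1 n = x.1 n := by
      change x.1 n + (((p : ℝ) ^ n / (p : ℝ) ^ n : ℝ) : Circ) = x.1 n
      rw [div_self (pow_ne_zero _ hp0), AddCircle.coe_period, add_zero]
    rw [this]; exact hxV
  · change x.1 (n + 1) + (((p : ℝ) ^ n / (p : ℝ) ^ (n + 1) : ℝ) : Circ) = _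
    congr 2
    rw [pow_succ]; field_simp

theorem indec_spec (h3 : S_cont) (h4 : S_int) : ∀ p, 2 ≤ p → Indec (Sol p) := by
  intro p hp
  obtain ⟨hc, hT2, hconn⟩ := h3 p hp
  refine ⟨hc, hT2, hconn, fun A B hA hB hAB => ?_⟩
  by_cases hAu : A = univ
  · exact Or.inl hAu
  right
  refine h4 p hp B hB ?_
  have hclosed : IsClosed A := hA.1.isClosed
  have hsub : Aᶜ ⊆ B := by
    intro z hz
    have : z ∈ A ∪ B := hAB ▸ mem_univ z
    exact this.resolve_left hz
  obtain ⟨y, hy⟩ := (Set.ne_univ_iff_exists_notMem A).1 hAu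
  exact ⟨y, interior_maximal hsub hclosed.isOpen_compl hy⟩

end Pool.Agent.Y938.SO
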