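import Pool.Agent.Y938.SO.Basis

/-! Project SO (helper938), job SO4 (helper254): connectedness of the preimage of an arc. -/

set_option autoImplicit false

namespace Pool.Agent.Y938.SO

open Set Topology

theorem strip_spec (h1 : S_basis) : S_strip := by
  intro p q hp hq hpq a b hab
  let L : Set (ℝ × ℝ) := {z | z.1 + z.2 ∈ Icc a b}
  let F : ℝ × ℝ → Sol p × Sol q := fun z => (Basis.leaf p hp z.1, Basis.leaf q hq z.2)
  have hF : Continuous F :=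
    ((Basis.leaf_continuous p hp).comp continuous_fst).prodMk
      ((Basis.leaf_continuous q hq).comp continuous_snd)
  have hLc : Convex ℝ L := by
    have h2 : L = (LinearMap.fst ℝ ℝ ℝ + LinearMap.snd ℝ ℝ ℝ) ⁻¹' Icc a b := by
      ext z; rfl
    rw [h2]
    exact (convex_Icc a b).linear_preimage _
  have hmem : F '' L ⊆ Wst p q a b := by
    rintro _ ⟨z, hz, rfl⟩
    refine ⟨z.1 + z.2, hz, ?_⟩
    show ((z.1 + z.2 : ℝ) : Circ) = ((z.1 / (p : ℝ) ^ 0 : ℝ) : Circ) + ((z.2 / (q : ℝ) ^ 0 : ℝ) : Circ)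
    rw [pow_zero, pow_zero, div_one, div_one, AddCircle.coe_add]
  have hcl : Wst p q a b ⊆ closure (F '' L) := by
    rintro ⟨x, y⟩ ⟨c, hc, hcxy⟩
    rw [mem_closure_iff]
    intro U hU hxy
    obtain ⟨U1, U2, hU1, hU2, hx, hy, hUU⟩ := isOpen_prod_iff.1 hU x y hxy
    obtain ⟨N1, hN1⟩ := h1 p hp x U1 hU1 hx
    obtain ⟨N2, hN2⟩ := h1 q hq y U2 hU2 hy
    obtain ⟨n, hn⟩ : ∃ n, n = max N1 N2 := ⟨_, rfl⟩
    obtain ⟨V1, -, hxV, hV1⟩ := hN1 n (hn ▸ le_max_left _ _)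
    obtain ⟨V2, -, hyV, hV2⟩ := hN2 n (hn ▸ le_max_right _ _)
    obtain ⟨a1, ha1⟩ : ∃ a1 : ℝ, (a1 : Circ) = x.1 n := QuotientAddGroup.mk_surjective (x.1 n)
    obtain ⟨b1, hb1⟩ : ∃ b1 : ℝ, (b1 : Circ) = y.1 n := QuotientAddGroup.mk_surjective (y.1 n)
    have hx0 : x.1 0 = (((p : ℝ) ^ n * a1 : ℝ) : Circ) := by
      have h2 := Basis.coord x n 0
      rw [zero_add] at h2
      rw [h2, ← ha1, ← AddCircle.coe_nsmul, nsmul_eq_mul]
      push_cast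
      rfl
    have hy0 : y.1 0 = (((q : ℝ) ^ n * b1 : ℝ) : Circ) := by
      have h2 := Basis.coord y n 0
      rw [zero_add] at h2
      rw [h2, ← hb1, ← AddCircle.coe_nsmul, nsmul_eq_mul]
      push_cast
      rfl
    have hk : (((p : ℝ) ^ n * a1 + (q : ℝ) ^ n * b1 - c : ℝ) : Circ) = 0 := by
      have h2 : (c : Circ) = x.1 0 + y.1 0 := hcxy
      rw [AddCircle.coe_sub, AddCircle.coe_add, ← hx0, ← hy0, ← h2, sub_self]
    rw [AddCircle.coe_eq_zero_iff] at hk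
    obtain ⟨k, hk⟩ := hk
    rw [zsmul_eq_mul, mul_one] at hk
    have hcop : IsCoprime ((p : ℤ) ^ n) ((q : ℤ) ^ n) :=
      IsCoprime.pow (Nat.isCoprime_iff_coprime.2 hpq)
    obtain ⟨u, v, huv⟩ := hcop
    have huv' : (u : ℝ) * (p : ℝ) ^ n + (v : ℝ) * (q : ℝ) ^ n = 1 := by exact_mod_cast huv
    have hp0 : (p : ℝ) ^ n ≠ 0 := by positivity
    have hq0 : (q : ℝ) ^ n ≠ 0 := by positivity
    obtain ⟨s, hs⟩ : ∃ s : ℝ, s = (p : ℝ) ^ n * (a1 + ((-k * u : ℤ) : ℝ)) := ⟨_, rfl⟩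
    obtain ⟨t, ht⟩ : ∃ t : ℝ, t = (q : ℝ) ^ n * (b1 + ((-k * v : ℤ) : ℝ)) := ⟨_, rfl⟩
    have hst : s + t = c := by
      rw [hs, ht]
      push_cast
      have h3 : (k : ℝ) * ((u : ℝ) * (p : ℝ) ^ n + (v : ℝ) * (q : ℝ) ^ n) = k := by
        rw [huv', mul_one]
      linarith
    have hint : ∀ m : ℤ, (((m : ℤ) : ℝ) : Circ) = 0 := by
      intro m
      rw [AddCircle.coe_eq_zero_iff]
      exact ⟨m, by rw [zsmul_eq_mul, mul_one]⟩
    refine ⟨F (s, t), hUU ⟨hV1 _ ?_, hV2 _ ?_⟩, (s, t), ?_, rfl⟩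
    · show ((s / (p : ℝ) ^ n : ℝ) : Circ) ∈ V1
      rw [hs, mul_div_cancel_left₀ _ hp0, AddCircle.coe_add, hint, add_zero, ha1]
      exact hxV
    · show ((t / (q : ℝ) ^ n : ℝ) : Circ) ∈ V2
      rw [ht, mul_div_cancel_left₀ _ hq0, AddCircle.coe_add, hint, add_zero, hb1]
      exact hyV
    · show s + t ∈ Icc a b
      rw [hst]; exact hc
  have hpre : IsPreconnected (Wst p q a b) :=
    (hLc.isPreconnected.image F hF.continuousOn).subset_closure hmem hcl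
  exact ⟨⟨F (a, 0), hmem ⟨(a, 0), by show a + 0 ∈ Icc a b; rw [add_zero]; exact ⟨le_rfl, hab⟩, rfl⟩⟩,
    hpre⟩

end Pool.Agent.Y938.SO
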