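import Pool.Agent.Y938.SO.Stm
import Pool.Agent.Y938.SO.Basis
import Pool.Agent.Y938.SO.Cut
import Pool.Agent.Y938.SO.Int
import Pool.Agent.Y938.SO.Strip
import Pool.Agent.Y938.SO.Geo

/-!
# The set function `T` on products of solenoids
-/

set_option autoImplicit false

open Set Topology
open Pool.Agent.Y938.SO

namespace Pool.Agent.Y938.SO.Main

theorem arc_closed (a b : ℝ) : IsClosed ((fun t : ℝ => (t : Circ)) '' Icc a b) :=
  (isCompact_Icc.image (AddCircle.continuous_mk' 1)).isClosed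

theorem sum_cont (p q : ℕ) :
    Continuous (fun z : Sol p × Sol q => z.1.1 0 + z.2.1 0) := by
  have h1 : Continuous (fun z : Sol p × Sol q => z.1.1 0) :=
    (continuous_apply 0).comp (continuous_subtype_val.comp continuous_fst)
  have h2 : Continuous (fun z : Sol p × Sol q => z.2.1 0) :=
    (continuous_apply 0).comp (continuous_subtype_val.comp continuous_snd)
  exact h1.add h2

/-- every point outside a strip lies in the interior of a disjoint strip -/
theorem sep (p q : ℕ) (a b : ℝ) (z : Sol p × Sol q) (hz : z ∉ Wst p q a b) :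
    ∃ c d : ℝ, c < d ∧ z ∈ interior (Wst p q c d) ∧ Disjoint (Wst p q c d) (Wst p q a b) := by
  obtain ⟨t, ht⟩ := QuotientAddGroup.mk_surjective (z.1.1 0 + z.2.1 0)
  have ht' : ((t : ℝ) : Circ) = z.1.1 0 + z.2.1 0 := ht
  have hcont : Continuous (fun s : ℝ => (s : Circ)) := AddCircle.continuous_mk' 1
  have hopen : IsOpen ((fun s : ℝ => (s : Circ)) ⁻¹' ((fun t : ℝ => (t : Circ)) '' Icc a b)ᶜ) :=
    (arc_closed a b).isOpen_compl.preimage hcont
  have hmem : t ∈ (fun s : ℝ => (s : Circ)) ⁻¹' ((fun t : ℝ => (t : Circ)) '' Icc a b)ᶜ := by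
    intro hc
    obtain ⟨r, hr, hrt⟩ := hc
    exact hz ⟨r, hr, hrt.trans ht'⟩
  obtain ⟨ε, hε, hball⟩ := Metric.isOpen_iff.1 hopen t hmem
  refine ⟨t - ε / 2, t + ε / 2, by linarith, ?_, ?_⟩
  · have hV : IsOpen ((fun s : ℝ => (s : Circ)) '' Ioo (t - ε / 2) (t + ε / 2)) :=
      QuotientAddGroup.isOpenMap_coe _ isOpen_Ioo
    have hU : IsOpen ((fun z : Sol p × Sol q => z.1.1 0 + z.2.1 0) ⁻¹'
        ((fun s : ℝ => (s : Circ)) '' Ioo (t - ε / 2) (t + ε / 2))) := hV.preimage (sum_cont p q)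
    refine mem_interior.2 ⟨_, ?_, hU, ?_⟩
    · rintro w ⟨r, hr, hrw⟩
      exact ⟨r, Ioo_subset_Icc_self hr, hrw⟩
    · exact ⟨t, ⟨by linarith, by linarith⟩, ht'⟩
  · rw [Set.disjoint_left]
    rintro w ⟨s, hs, hsw⟩ hw
    have hs' : s ∈ Metric.ball t ε := by
      rw [Metric.mem_ball, Real.dist_eq, abs_lt]
      constructor <;> linarith [hs.1, hs.2]
    obtain ⟨r, hr, hrw⟩ := hw
    exact hball hs' ⟨r, hr, hrw.trans hsw.symm⟩

/-- **The set function `T` on products of two indecomposable continua.** For coprime `p, q ≥ 2` the `p`-adic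
solenoid and the `q`-adic solenoid are indecomposable continua, and in their product every strip
`W = {(x, y) | x₀ + y₀ ∈ arc}` over an arc of positive length is a subcontinuum with nonempty interior which
is its own image under Jones' set function: `T(W) = W`; and `W` is not the whole product if the arc is not the
whole circle. In particular `T(W) ≠ X × Y`. -/
theorem result (p q : ℕ) (hp : 2 ≤ p) (hq : 2 ≤ q) (hpq : Nat.Coprime p q) :
    Indec (Sol p) ∧ Indec (Sol q) ∧
      (∀ a b : ℝ, a < b → IsSubcont (Wst p q a b) ∧ (interior (Wst p q a b)).Nonempty ∧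
        jonesT (Wst p q a b) = Wst p q a b) ∧
      (∀ a b : ℝ, a < b → b < a + 1 →
        Wst p q a b ≠ univ ∧ jonesT (Wst p q a b) ≠ univ) := by
  have h1 := basis_spec
  have h3 := cont_spec h1
  have h4 := int_spec h1 cut_spec h3
  have hI := indec_spec h3 h4
  have hstrip := strip_spec h1 p q hp hq hpq
  have hgeo := geo_spec p q hp hq
  have := (h3 p hp).1
  have := (h3 q hq).1
  have hsub : ∀ a b : ℝ, a < b → IsSubcont (Wst p q a b) := fun a b hab =>
    ⟨(hgeo.1 a b).isCompact, hstrip a b hab.le⟩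
  have hT : ∀ a b : ℝ, jonesT (Wst p q a b) = Wst p q a b := by
    intro a b
    apply Subset.antisymm
    · intro z hz
      by_contra hzn
      obtain ⟨c, d, hcd, hint, hdis⟩ := sep p q a b z hzn
      obtain ⟨w, hw1, hw2⟩ := hz (Wst p q c d) (hsub c d hcd) hint
      exact Set.disjoint_left.1 hdis hw1 hw2
    · intro z hz K _ hzK
      exact ⟨z, interior_subset hzK, hz⟩
  have hne : ∀ a b : ℝ, a < b → b < a + 1 → Wst p q a b ≠ univ := by
    intro a b hab hb hu
    obtain ⟨z, c, hc, hz⟩ := (hstrip ((b + (a + 1)) / 2) ((b + (a + 1)) / 2) le_rfl).nonempty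
    have hzm : z ∈ Wst p q a b := by rw [hu]; trivial
    obtain ⟨t, ht, htz⟩ := hzm
    have hct : ((c : ℝ) : Circ) = ((t : ℝ) : Circ) := by
      have h5 : ((c : ℝ) : Circ) = z.1.1 0 + z.2.1 0 := hz
      have h6 : ((t : ℝ) : Circ) = z.1.1 0 + z.2.1 0 := htz
      rw [h5, h6]
    have hc' : c = (b + (a + 1)) / 2 := le_antisymm hc.2 hc.1
    have h7 : ((c - t : ℝ) : Circ) = 0 := by
      rw [AddCircle.coe_sub, hct, sub_self]
    rw [AddCircle.coe_eq_zero_iff] at h7
    obtain ⟨n, hn⟩ := h7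
    have hn' : (n : ℝ) = c - t := by
      rw [← hn]; simp
    have hlt : (0 : ℝ) < n := by rw [hn', hc']; linarith [ht.2]
    have hgt : (n : ℝ) < 1 := by rw [hn', hc']; linarith [ht.1]
    have h8 : (0 : ℤ) < n := by exact_mod_cast hlt
    have h9 : n < (1 : ℤ) := by exact_mod_cast hgt
    omega
  refine ⟨hI p hp, hI q hq, fun a b hab => ⟨hsub a b hab, hgeo.2.1 a b hab, hT a b⟩,
    fun a b hab hb => ⟨hne a b hab hb, ?_⟩⟩
  rw [hT]
  exact hne a b hab hb

end Pool.Agent.Y938.SO.Main
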