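import Mathlib

set_option autoImplicit false

/-! Project SO (MP_cdfe0d_gt): the set function T on products of solenoids. -/

namespace Pool.Agent.Y938.SO

open Set Topology

/-- A subcontinuum of a (compact Hausdorff) space: a nonempty compact connected subset. -/
def IsSubcont {S : Type} [TopologicalSpace S] (K : Set S) : Prop := IsCompact K ∧ IsConnected K

/-- `X` is an indecomposable continuum: a nonempty compact connected Hausdorff space which is not
the union of two proper subcontinua. -/
def Indec (X : Type) [TopologicalSpace X] : Prop :=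
  CompactSpace X ∧ T2Space X ∧ ConnectedSpace X ∧
    ∀ A B : Set X, IsSubcont A → IsSubcont B → A ∪ B = univ → A = univ ∨ B = univ

/-- Jones' set function `T`: the points `p` such that every subcontinuum with `p` in its interior
meets `A`. -/
def jonesT {S : Type} [TopologicalSpace S] (A : Set S) : Set S :=
  {p | ∀ K : Set S, IsSubcont K → p ∈ interior K → (K ∩ A).Nonempty}

/-- the circle -/
abbrev Circ : Type := AddCircle (1 : ℝ)

/-- The `p`-adic solenoid, as the inverse limit of circles under multiplication by `p`. -/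
def Sol (p : ℕ) : Type := {x : ℕ → Circ // ∀ n, p • x (n + 1) = x n}

instance (p : ℕ) : TopologicalSpace (Sol p) := instTopologicalSpaceSubtype

/-- The set of pairs `(x, y)` with `x₀ + y₀` in the arc which is the image of `[a, b]`. -/
def Wst (p q : ℕ) (a b : ℝ) : Set (Sol p × Sol q) :=
  {z | z.1.1 0 + z.2.1 0 ∈ (fun t : ℝ => (t : Circ)) '' Icc a b}

/-- basic neighbourhoods depend on one (large) coordinate only -/
def S_basis : Prop := ∀ (p : ℕ), 2 ≤ p → ∀ (x : Sol p) (U : Set (Sol p)), IsOpen U → x ∈ U →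
  ∃ N : ℕ, ∀ n, N ≤ n → ∃ V : Set Circ, IsOpen V ∧ x.1 n ∈ V ∧ ∀ z : Sol p, z.1 n ∈ V → z ∈ U

/-- the solenoid is a continuum -/
def S_cont : Prop := ∀ (p : ℕ), 2 ≤ p → CompactSpace (Sol p) ∧ T2Space (Sol p) ∧ ConnectedSpace (Sol p)

/-- a connected set of the circle avoiding all `z` with `p z = p y` does not contain both `u` and
`u + 1/p` -/
def S_cut : Prop := ∀ (p : ℕ), 2 ≤ p → ∀ (D : Set Circ) (y u : Circ), IsPreconnected D →
  (∀ z ∈ D, p • z ≠ p • y) → u ∈ D → u + ((1 / (p : ℝ) : ℝ) : Circ) ∉ D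

/-- subcontinua with interior are everything -/
def S_int : Prop := ∀ (p : ℕ), 2 ≤ p → ∀ C : Set (Sol p), IsSubcont C → (interior C).Nonempty →
  C = univ

/-- the preimage of an arc is connected -/
def S_strip : Prop := ∀ (p q : ℕ), 2 ≤ p → 2 ≤ q → Nat.Coprime p q → ∀ a b : ℝ, a ≤ b →
  IsConnected (Wst p q a b)

/-- closedness, interior and disjointness -/
def S_geo : Prop := ∀ (p q : ℕ), 2 ≤ p → 2 ≤ q →
  (∀ a b : ℝ, IsClosed (Wst p q a b)) ∧
  (∀ a b : ℝ, a < b → (interior (Wst p q a b)).Nonempty) ∧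
  Disjoint (Wst p q 0 (1 / 4)) (Wst p q (1 / 2) (3 / 4))

end Pool.Agent.Y938.SO
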